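import Pool.Agent.Run7.h245.SR.Iface2

/-!
# Common facts for the pieces SQ2, IRW of the project SR (helper228)
-/

set_option autoImplicit false
set_option linter.all false

open Polynomial IsDedekindDomain Matrix NumberField
open scoped Classical

namespace Pool.Agent.Run7.h228.SR

open Pool.Agent.N783.PF
open Pool.Agent.Run7.h245.SR

section field

variable {F L : Type} [Field F] [NumberField F] [Field L] [NumberField L] [Algebra F L]
variable {g : ℕ} {f : (𝓞 F)[X]} {θ : L}

theorem fF_monic (hG : IsGen g f θ) : (fF f).Monic := hG.mon.map _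

theorem fF_natDegree (hG : IsGen g f θ) : (fF f).natDegree = 2 * g + 1 := by
  rw [fF, hG.mon.natDegree_map, hG.deg]

/-- A polynomial with zero `θ` is a multiple of `f`. -/
theorem dvd_of_aeval (hG : IsGen g f θ) {p : F[X]} (hp : aeval θ p = 0) : fF f ∣ p := by
  have hm := fF_monic hG
  rw [← modByMonic_eq_zero_iff_dvd hm]
  set r := p %ₘ fF f with hr
  have hr0 : aeval θ r = 0 := by
    have e := modByMonic_add_div p (fF f)
    have e2 := congrArg (aeval θ) e
    rw [map_add, map_mul, hG.root, zero_mul, add_zero, hp] at e2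
    exact e2
  have hd : r.natDegree < 2 * g + 1 := by
    have := natDegree_modByMonic_lt p hm (by
      intro h1
      have := fF_natDegree hG
      rw [h1, natDegree_one] at this
      omega)
    rwa [fF_natDegree hG] at this
  have hli := hG.basis.linearIndependent
  rw [Fintype.linearIndependent_iff] at hli
  have hs : ∑ i : Fin (2 * g + 1), r.coeff (i : ℕ) • hG.basis i = 0 := by
    rw [← hr0, aeval_eq_sum_range' hd, Finset.sum_range]
    exact Finset.sum_congr rfl fun i _ => by rw [hG.basis_apply]
  have hz := hli (fun i => r.coeff (i : ℕ)) hs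
  ext n
  rw [coeff_zero]
  by_cases hn : n < 2 * g + 1
  · exact hz ⟨n, hn⟩
  · exact coeff_eq_zero_of_natDegree_lt (by omega)

/-- Every element of `L` is a polynomial in `θ`. -/
theorem exists_pol (hG : IsGen g f θ) (x : L) : ∃ p : F[X], aeval θ p = x := by
  obtain ⟨c, hc⟩ := hG.gen x
  refine ⟨∑ i : Fin (2 * g + 1), C (c i) * X ^ (i : ℕ), ?_⟩
  rw [map_sum, hc]
  exact Finset.sum_congr rfl fun i _ => by rw [map_mul, aeval_C, map_pow, aeval_X]

end field

section comp

variable {F : Type} [Field F] [NumberField F] (w : HeightOneSpectrum (𝓞 F))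

/-- The map from the ring of integers to the completion. -/
noncomputable abbrev io : 𝓞 F →+* w.adicCompletionIntegers F :=
  algebraMap (𝓞 F) (w.adicCompletionIntegers F)

theorem io_val (a : 𝓞 F) : Valued.v (io w a : w.adicCompletion F) = w.valuation F (a : F) :=
  HeightOneSpectrum.valuedAdicCompletion_eq_valuation' w (a : F)

theorem io_unit {a : 𝓞 F} (ha : a ∉ w.asIdeal) : IsUnit (io w a) := by
  rw [HeightOneSpectrum.adicCompletionIntegers.isUnit_iff_valued_eq_one]
  exact (io_val w a).trans (HeightOneSpectrum.valuation_eq_one_iff_notMem (K := F) w |>.2 ha)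

theorem io_mem {a : 𝓞 F} (ha : a ∈ w.asIdeal) :
    io w a ∈ IsLocalRing.maximalIdeal (w.adicCompletionIntegers F) := by
  rw [IsLocalRing.mem_maximalIdeal, mem_nonunits_iff,
    HeightOneSpectrum.adicCompletionIntegers.isUnit_iff_valued_eq_one]
  intro h
  have h1 := (io_val w a).symm.trans h
  exact (HeightOneSpectrum.valuation_eq_one_iff_notMem (K := F) w).1 h1 ha

theorem io_comp : (algebraMap (w.adicCompletionIntegers F) (w.adicCompletion F)).comp (io w) =
    (algebraMap F (w.adicCompletion F)).comp (algebraMap (𝓞 F) F) := by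
  ext a
  rfl

/-- The polynomial over the ring of integers of the completion. -/
noncomputable abbrev pR (p : (𝓞 F)[X]) : (w.adicCompletionIntegers F)[X] := p.map (io w)

/-- The polynomial over the completion. -/
noncomputable abbrev pK (p : F[X]) : (w.adicCompletion F)[X] :=
  p.map (algebraMap F (w.adicCompletion F))

/-- From the ring of integers of the completion to the completion. -/
noncomputable abbrev pRK (p : (w.adicCompletionIntegers F)[X]) : (w.adicCompletion F)[X] :=
  p.map (algebraMap (w.adicCompletionIntegers F) (w.adicCompletion F))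

theorem pRK_pR (p : (𝓞 F)[X]) : pRK w (pR w p) = pK w (fF p) := by
  rw [pRK, pR, pK, fF, Polynomial.map_map, Polynomial.map_map, io_comp]

theorem coeff_mem {p : (𝓞 F)[X]} (h : ∀ i, p.coeff i ∈ w.asIdeal) (i : ℕ) :
    (pR w p).coeff i ∈ IsLocalRing.maximalIdeal (w.adicCompletionIntegers F) := by
  rw [pR, coeff_map]
  exact io_mem w (h i)

theorem coeff_mem_of_rd {p : (𝓞 F)[X]} (h : rd w.asIdeal p = 0) (i : ℕ) :
    (pR w p).coeff i ∈ IsLocalRing.maximalIdeal (w.adicCompletionIntegers F) := by
  refine coeff_mem w (fun i => ?_) i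
  have := congrArg (fun q => q.coeff i) h
  simp only [coeff_map, coeff_zero] at this
  exact Ideal.Quotient.eq_zero_iff_mem.1 this

/-- A separable reduction gives a discriminant prime to `w`. -/
theorem dsc_not (h : S_DSC) {g : ℕ} {f : (𝓞 F)[X]} (hg : 1 ≤ g) (hm : f.Monic)
    (hd : f.natDegree = 2 * g + 1) (hs : (rd w.asIdeal f).Separable) :
    dsc g f ∉ w.asIdeal ^ 2 := by
  intro h1
  refine h F g w.asIdeal f f hg w.isPrime w.ne_bot hm hd (fun j => ?_) hs
    (Ideal.pow_le_self two_ne_zero h1)
  rw [sub_self]
  exact Submodule.zero_mem _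

end comp

end Pool.Agent.Run7.h228.SR
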