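import Pool.Agent.Run7.h228.SR.Com
import Pool.Agent.N42.PF.CQ

/-!
# Piece IRW of the project SR (helper228)
-/

set_option autoImplicit false
set_option linter.all false

open Polynomial IsDedekindDomain Matrix NumberField
open scoped Classical

namespace Pool.Agent.Run7.h228.SR

open Pool.Agent.N783.PF
open Pool.Agent.Run7.h245.SR

/-- If `a` is a nonzero square modulo `w, f` and `h a` is a square modulo `f` then `h` is a
square modulo `f` over the completion. -/
theorem lift_sq (h2 : S_HENQ) {g : ℕ} {F L : Type} [Field F] [NumberField F] [Field L]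
    [NumberField L] [Algebra F L] {f : (𝓞 F)[X]} {θ : L} (hG : IsGen g f θ)
    (w : HeightOneSpectrum (𝓞 F)) {h : F[X]} (h0 : aeval θ h ≠ 0) {a s t : (𝓞 F)[X]} {u : F[X]}
    (hu : fF f ∣ h * fF a - u ^ 2) (hu0 : aeval θ u ≠ 0)
    (hs : rd w.asIdeal f ∣ rd w.asIdeal a - rd w.asIdeal s ^ 2)
    (ht : rd w.asIdeal f ∣ 2 * rd w.asIdeal s * rd w.asIdeal t - 1) :
    ∃ s : (w.adicCompletion F)[X], pK w (fF f) ∣ pK w h - s ^ 2 := by
  obtain ⟨v, hv⟩ := hs
  obtain ⟨v', hv'⟩ := ht
  obtain ⟨v, rfl⟩ := Polynomial.map_surjective _ Ideal.Quotient.mk_surjective v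
  obtain ⟨v', rfl⟩ := Polynomial.map_surjective _ Ideal.Quotient.mk_surjective v'
  obtain ⟨y, hy⟩ := h2 F w (pR w f) 0 (-pR w a) (pR w s) (pR w t) (-pR w v) (pR w v')
    (hG.mon.map _) (by
      intro i
      have e : pR w s ^ 2 + 0 * pR w s + -pR w a - pR w f * -pR w v =
          pR w (s ^ 2 - a + f * v) := by
        simp only [pR, Polynomial.map_sub, Polynomial.map_mul, Polynomial.map_add,
          Polynomial.map_pow]
        ring
      rw [e]
      refine coeff_mem_of_rd w ?_ i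
      simp only [rd, Polynomial.map_sub, Polynomial.map_mul, Polynomial.map_add,
          Polynomial.map_pow] at hv ⊢
      rw [← hv]
      ring) (by
      intro i
      have e : (2 * pR w s + 0) * pR w t - 1 - pR w f * pR w v' =
          pR w (2 * s * t - 1 - f * v') := by
        simp only [pR, Polynomial.map_sub, Polynomial.map_mul, Polynomial.map_add,
          Polynomial.map_pow, Polynomial.map_ofNat, Polynomial.map_one]
        ring
      rw [e]
      refine coeff_mem_of_rd w ?_ i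
      simp only [rd, Polynomial.map_sub, Polynomial.map_mul, Polynomial.map_add,
          Polynomial.map_pow, Polynomial.map_ofNat, Polynomial.map_one] at hv' ⊢
      rw [hv']
      ring)
  -- the inverse of `a`
  have hau : aeval θ h * aeval θ (fF a) = aeval θ u ^ 2 := by
    obtain ⟨q, hq⟩ := hu
    have := congrArg (aeval θ) hq
    rw [map_mul, hG.root, zero_mul, map_sub, map_mul, map_pow, sub_eq_zero] at this
    exact this
  have ha0 : aeval θ (fF a) ≠ 0 := by
    intro h1
    rw [h1, mul_zero] at hau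
    exact pow_ne_zero 2 hu0 hau.symm
  obtain ⟨b, hb⟩ := exists_pol hG (aeval θ (fF a))⁻¹
  have hab : fF f ∣ fF a * b - 1 := by
    apply dvd_of_aeval hG
    rw [map_sub, map_mul, hb, mul_inv_cancel₀ ha0, map_one, sub_self]
  have habK : pK w (fF f) ∣ pK w (fF a) * pK w b - 1 := by
    have := Polynomial.map_dvd (algebraMap F (w.adicCompletion F)) hab
    simpa only [Polynomial.map_sub, Polynomial.map_mul, Polynomial.map_one] using this
  have huK : pK w (fF f) ∣ pK w h * pK w (fF a) - pK w u ^ 2 := by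
    have := Polynomial.map_dvd (algebraMap F (w.adicCompletion F)) hu
    simpa only [Polynomial.map_sub, Polynomial.map_mul, Polynomial.map_pow] using this
  have hyK : pK w (fF f) ∣ pRK w y ^ 2 - pK w (fF a) := by
    have := Polynomial.map_dvd (algebraMap (w.adicCompletionIntegers F) (w.adicCompletion F)) hy
    rw [← pRK_pR, ← pRK_pR]
    convert this using 1
    simp only [Polynomial.map_sub, Polynomial.map_mul, Polynomial.map_add, Polynomial.map_pow,
      Polynomial.map_neg, Polynomial.map_zero]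
    ring
  refine ⟨pK w u * pRK w y * pK w b, ?_⟩
  obtain ⟨p, hp⟩ := habK
  obtain ⟨q, hq⟩ := huK
  obtain ⟨r, hr⟩ := hyK
  refine ⟨-p * pK w h + q * pK w b - pK w u ^ 2 * pK w b * p - pK w u ^ 2 * pK w b ^ 2 * r, ?_⟩
  have e : pK w h - (pK w u * pRK w y * pK w b) ^ 2 =
      -(pK w (fF a) * pK w b - 1) * pK w h +
      (pK w h * pK w (fF a) - pK w u ^ 2) * pK w b -
      pK w u ^ 2 * pK w b * (pK w (fF a) * pK w b - 1) -
      pK w u ^ 2 * pK w b ^ 2 * (pRK w y ^ 2 - pK w (fF a)) := by ring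
  rw [e, hp, hq, hr]
  ring

theorem irw (h1 : S_RES) (h2 : S_HENQ) (h3 : S_DSC) : S_IRW := by
  intro g F L _ _ _ _ _ f θ hg hG w hw2 hirr h h0 hN hEv
  haveI : w.asIdeal.IsMaximal := w.isMaximal
  letI : Field (𝓞 F ⧸ w.asIdeal) := Ideal.Quotient.field _
  haveI : Finite (𝓞 F ⧸ w.asIdeal) := Ideal.finiteQuotientOfFreeOfNeBot _ w.ne_bot
  have hsep : (rd w.asIdeal f).Separable := PerfectField.separable_of_irreducible hirr
  obtain ⟨a, u, hu, hu0, hcop, hno⟩ := h1 g F L f θ hG w (dsc_not w h3 hg hG.mon hG.deg hsep) h h0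
    hEv
  obtain ⟨-, d, hd⟩ := hno hN
  haveI : Fact (Irreducible (rd w.asIdeal f)) := ⟨hirr⟩
  have h20 : (2 : 𝓞 F ⧸ w.asIdeal) ≠ 0 := by
    intro h
    exact hw2 (Ideal.Quotient.eq_zero_iff_mem.1 ((map_ofNat _ 2).trans h))
  have hfm : (rd w.asIdeal f).Monic := hG.mon.map _
  haveI : Module.Finite (𝓞 F ⧸ w.asIdeal) (AdjoinRoot (rd w.asIdeal f)) :=
    Module.Finite.of_basis (AdjoinRoot.powerBasis' hfm).basis
  haveI : Finite (AdjoinRoot (rd w.asIdeal f)) := Module.finite_of_finite (𝓞 F ⧸ w.asIdeal)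
  have hc0 : AdjoinRoot.mk (rd w.asIdeal f) (rd w.asIdeal a) ≠ 0 := by
    intro h
    rw [AdjoinRoot.mk_eq_zero] at h
    exact hirr.not_isUnit (hcop.isUnit_of_dvd' h dvd_rfl)
  obtain ⟨c, hc⟩ := Pool.Agent.N42.PF.sq_of_norm h20 hc0 (hd.trans (pow_two d).symm)
  obtain ⟨s, rfl⟩ := AdjoinRoot.mk_surjective c
  obtain ⟨s, rfl⟩ := Polynomial.map_surjective _ Ideal.Quotient.mk_surjective s
  have hs0 : AdjoinRoot.mk (rd w.asIdeal f) (rd w.asIdeal s) ≠ 0 := by
    intro h
    rw [h, mul_zero] at hc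
    exact hc0 hc.symm
  have h2E : (2 : AdjoinRoot (rd w.asIdeal f)) ≠ 0 := by
    intro h
    apply h20
    apply (algebraMap (𝓞 F ⧸ w.asIdeal) (AdjoinRoot (rd w.asIdeal f))).injective
    rw [map_ofNat, map_zero, h]
  obtain ⟨t, ht⟩ := AdjoinRoot.mk_surjective
    (2 * AdjoinRoot.mk (rd w.asIdeal f) (rd w.asIdeal s))⁻¹
  obtain ⟨t, rfl⟩ := Polynomial.map_surjective _ Ideal.Quotient.mk_surjective t
  refine lift_sq h2 hG w h0 (s := s) (t := t) hu hu0 ?_ ?_
  · rw [← AdjoinRoot.mk_eq_zero, map_sub, map_pow, ← hc, pow_two, sub_self]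
  · rw [← AdjoinRoot.mk_eq_zero, map_sub, map_mul, map_mul, ht, map_ofNat, map_one,
      mul_inv_cancel₀ (mul_ne_zero h2E hs0), sub_self]

end Pool.Agent.Run7.h228.SR
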