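import Pool.Agent.Run7.h228.SR.Com

/-!
# Piece SQ2 of the project SR (helper228)
-/

set_option autoImplicit false
set_option linter.all false

open Polynomial IsDedekindDomain Matrix NumberField
open scoped Classical

namespace Pool.Agent.Run7.h228.SR

open Pool.Agent.N783.PF
open Pool.Agent.Run7.h245.SR

theorem sq2 (h1 : S_GAT) (h2 : S_HENQ) (h3 : S_DSC) : S_SQ2 := by
  intro g F L _ _ _ _ _ f θ hg hG w hw2 hsep h₀ u z hz hint
  obtain ⟨m, hm, Z, hZ⟩ := h1 g F L f θ hG w (dsc_not w h3 hg hG.mon hG.deg hsep) z hint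
  obtain ⟨U, hU⟩ := exists_pol hG u
  -- the unit `m`
  obtain ⟨M, hM⟩ := io_unit w hm
  set M' : w.adicCompletionIntegers F := ((M⁻¹ : (w.adicCompletionIntegers F)ˣ) :
    w.adicCompletionIntegers F) with hM'
  have hMM : io w m * M' = 1 := by rw [← hM, hM', Units.mul_inv]
  -- the quadratic equation
  obtain ⟨y, hy⟩ := h2 F w (pR w f) 1 (-(4 * C M' * pR w Z)) 0 1 0 0 (hG.mon.map _) (by
    intro i
    have e : (0 : (w.adicCompletionIntegers F)[X]) ^ 2 + 1 * 0 + -(4 * C M' * pR w Z) - pR w f * 0 =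
        C (io w 2 * (-2 * M')) * pR w Z := by
      rw [map_mul, map_mul, map_ofNat, map_neg, map_ofNat]
      ring
    rw [e, coeff_C_mul]
    exact Ideal.mul_mem_right _ _ (Ideal.mul_mem_right _ _ (io_mem w hw2))) (by
    intro i
    have e : (2 * (0 : (w.adicCompletionIntegers F)[X]) + 1) * 1 - 1 - pR w f * 0 = 0 := by ring
    rw [e, coeff_zero]
    exact Ideal.zero_mem _)
  -- the relation over `F`
  have hd : fF f ∣ C (m : F) * h₀ - U ^ 2 * (C (m : F) + 16 * fF Z) := by
    apply dvd_of_aeval hG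
    rw [map_sub, map_mul, map_mul, aeval_C, map_pow, map_add, aeval_C, map_mul, hU, ← hZ, hz,
      map_ofNat]
    ring
  have hdK : pK w (fF f) ∣ C (algebraMap F (w.adicCompletion F) (m : F)) * pK w h₀ -
      pK w U ^ 2 * (C (algebraMap F (w.adicCompletion F) (m : F)) + 16 * pK w (fF Z)) := by
    have := Polynomial.map_dvd (algebraMap F (w.adicCompletion F)) hd
    simpa [Polynomial.map_sub, Polynomial.map_mul, Polynomial.map_add, Polynomial.map_pow,
      Polynomial.map_ofNat] using this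
  have hyK : pK w (fF f) ∣ pRK w y ^ 2 + pRK w y -
      4 * C (algebraMap (w.adicCompletionIntegers F) (w.adicCompletion F) M') * pK w (fF Z) := by
    have := Polynomial.map_dvd (algebraMap (w.adicCompletionIntegers F) (w.adicCompletion F)) hy
    rw [← pRK_pR, ← pRK_pR]
    convert this using 1
    simp only [Polynomial.map_sub, Polynomial.map_mul, Polynomial.map_add, Polynomial.map_pow,
      Polynomial.map_ofNat, Polynomial.map_neg, Polynomial.map_one, Polynomial.map_C]
    ring
  set μ : w.adicCompletion F := algebraMap F (w.adicCompletion F) (m : F) with hμ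
  set μ' : w.adicCompletion F := algebraMap (w.adicCompletionIntegers F) (w.adicCompletion F) M'
    with hμ'
  have hμμ : μ * μ' = 1 := by
    have := congrArg (algebraMap (w.adicCompletionIntegers F) (w.adicCompletion F)) hMM
    rw [map_mul, map_one] at this
    exact this
  have hC : (C μ : (w.adicCompletion F)[X]) * C μ' = 1 := by rw [← C_mul, hμμ, C_1]
  refine ⟨pK w U * (1 + 2 * pRK w y), ?_⟩
  obtain ⟨p, hp⟩ := hdK
  obtain ⟨q, hq⟩ := hyK
  refine ⟨C μ' * p - 4 * pK w U ^ 2 * q, ?_⟩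
  have e : pK w h₀ - (pK w U * (1 + 2 * pRK w y)) ^ 2 =
      C μ' * (C μ * pK w h₀ - pK w U ^ 2 * (C μ + 16 * pK w (fF Z))) -
      4 * pK w U ^ 2 * (pRK w y ^ 2 + pRK w y - 4 * C μ' * pK w (fF Z)) +
      (1 - C μ * C μ') * (pK w h₀ - pK w U ^ 2) := by ring
  rw [e, hp, hq, hC]
  ring

end Pool.Agent.Run7.h228.SR
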